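import Pool.Agent.PChar823.Ent
import Pool.Agent.L0h65.PC.CodeOf
import Pool.Agent.L0h65.PC.Group
import Pool.Agent.L0h65.PC.Masks

/-!
# Excluded minors of the union of the regular matroids and the `U_{2,4}`-equivalent matroids

We show that the class `M'` has an excluded minor which is not isomorphic to any of
`U_{2,5}`, `U_{3,5}`, `F₇`, `F₇*`; it is a minor of the non-Fano matroid `F₇⁻`.
-/

set_option autoImplicit false

namespace Pool.Agent.Results.MP_cf16d9_co.NonFanoMinor

open Set Pool.Agent.L0h65.PC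

/-- The p-characteristic set `χ_M` of a matroid `M` with ground set `M.E`. `PChar823.GammaStar N` is
the set `Γ*_N` of the entropy functions of the discrete random vectors indexed by `N`. -/
def pCharSet {α : Type} (M : Matroid α) : Set ℤ :=
  {v | 2 ≤ v ∧ (fun A : Set M.E => Real.log v * ((M.eRk (Subtype.val '' A)).toNat : ℝ)) ∈
    PChar823.GammaStar M.E}

/-- `M` is represented over the field `F` by vectors of some `F^k`. -/
def RepresentableOver {α : Type} (M : Matroid α) (F : Type) [Field F] : Prop :=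
  ∃ (k : ℕ) (φ : α → Fin k → F), ∀ I ⊆ M.E, M.Indep I ↔ LinearIndepOn F φ I

/-- A matroid is regular if it is representable over every field. -/
def Regular {α : Type} (M : Matroid α) : Prop := ∀ (F : Type) [Field F], RepresentableOver M F

/-- The class `M' = M_reg ∪ M_{U_{2,4}}` (of finite matroids). -/
def InClass {α : Type} (M : Matroid α) : Prop :=
  M.E.Finite ∧ (Regular M ∨ pCharSet M = {v : ℤ | 3 ≤ v ∧ v ≠ 6})

/-- `M` is a finite matroid not in `M'`, all of whose proper minors are in `M'`. -/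
def ExcludedMinor {α : Type} (M : Matroid α) : Prop :=
  M.E.Finite ∧ ¬ InClass M ∧ ∀ N : Matroid α, N <m M → InClass N

/-- `M` is isomorphic to the uniform matroid `U_{k,n}`. -/
def IsUniform {α : Type} (k n : ℕ) (M : Matroid α) : Prop :=
  M.E.encard = n ∧ ∀ I ⊆ M.E, M.Indep I ↔ I.encard ≤ k

/-- `M` is isomorphic to the Fano matroid `F₇`, the matroid of the seven nonzero vectors of
`(ℤ/2)³`. -/
def IsFano {α : Type} (M : Matroid α) : Prop :=
  ∃ φ : α → Fin 3 → ZMod 2, BijOn φ M.E {x | x ≠ 0} ∧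
    ∀ I ⊆ M.E, M.Indep I ↔ LinearIndepOn (ZMod 2) φ I

/-- The six three-point lines of the non-Fano matroid. -/
def lines : Finset (Finset (Fin 7)) :=
  {{0, 1, 3}, {1, 2, 4}, {0, 2, 5}, {0, 4, 6}, {1, 5, 6}, {2, 3, 6}}

/-- Independence in the non-Fano matroid: at most three points, not one of the six lines. -/
def P (I : Finset (Fin 7)) : Prop := I.card ≤ 3 ∧ I ∉ lines

instance : DecidablePred P := fun I => by unfold P; infer_instance

theorem P_subset : ∀ ⦃I J : Finset (Fin 7)⦄, P J → I ⊆ J → P I := by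
  intro I J hJ hIJ
  have hc := Finset.card_le_card hIJ
  refine ⟨hc.trans hJ.1, ?_⟩
  intro hI
  have h3 : ∀ L ∈ lines, L.card = 3 := by decide +kernel
  have := h3 I hI
  have hJ3 : J.card ≤ I.card := by rw [this]; exact hJ.1
  have := Finset.eq_of_subset_of_card_le hIJ hJ3
  rw [this] at hI
  exact hJ.2 hI

theorem P_aug : ∀ ⦃I J : Finset (Fin 7)⦄, P I → P J → I.card < J.card →
    ∃ e ∈ J, e ∉ I ∧ P (insert e I) := by
  intro I J hI hJ hlt
  have hJ3 := hJ.1
  by_cases h2 : I.card ≤ 1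
  · obtain ⟨e, heJ, heI⟩ := Finset.exists_mem_notMem_of_card_lt_card hlt
    refine ⟨e, heJ, heI, ?_⟩
    have hc : (insert e I).card ≤ 2 := by
      rw [Finset.card_insert_of_notMem heI]; omega
    refine ⟨by omega, ?_⟩
    intro h
    have h3 : ∀ L ∈ lines, L.card = 3 := by decide +kernel
    have := h3 _ h
    omega
  · have hI2 : I.card = 2 := by omega
    have hJ3' : J.card = 3 := by omega
    obtain ⟨i, hi, rfl⟩ := exists_mask I
    obtain ⟨j, hj, rfl⟩ := exists_mask J
    rw [card_ofMask] at hI2 hJ3'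
    obtain ⟨e, he, heI, h⟩ := aug_mask ⟨i, hi⟩ ⟨j, hj⟩ hI2 hJ3' (fun h => hJ.2 ((mem_lines j hj).2 h))
    have heI' : e ∉ ofMask i := fun h => heI ((mem_ofMask _ _).1 h)
    refine ⟨e, (mem_ofMask _ _).2 he, heI', ?_, ?_⟩
    · rw [Finset.card_insert_of_notMem heI', card_ofMask]; omega
    · rw [← ofMask_insert]
      have h2 : 2 ^ (e : ℕ) < 2 ^ 7 := Nat.pow_lt_pow_right (by norm_num) e.2
      exact fun h' => h ((mem_lines _ (Nat.or_lt_two_pow (n := 7) hi h2)).1 h')

/-- The non-Fano matroid `F₇⁻`. -/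
def nonFano : Matroid (Fin 7) :=
  (IndepMatroid.ofFinset Set.univ P (by decide) P_subset P_aug (fun _ _ => Set.subset_univ _)).matroid

@[simp] theorem nonFano_E : nonFano.E = Set.univ := rfl

theorem nonFano_indep (I : Finset (Fin 7)) : nonFano.Indep (I : Set (Fin 7)) ↔ P I := by
  unfold nonFano
  simp

/-- The rank function of the non-Fano matroid. -/
def r (A : Finset (Fin 7)) : ℕ := if A.card ≤ 2 then A.card else if A ∈ lines then 2 else 3

theorem r_ofMask (m : ℕ) (hm : m < 128) : r (ofMask m) = rm m := by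
  unfold r rm
  simp only [card_ofMask]
  congr 1
  exact if_congr (mem_lines m hm) rfl rfl

theorem P_ofMask (m : ℕ) (hm : m < 128) : P (ofMask m) ↔ (pc m ≤ 3 ∧ m ∉ lineMasks) := by
  unfold P
  rw [card_ofMask]
  exact and_congr_right fun _ => not_congr (mem_lines m hm)

theorem r_max (A : Finset (Fin 7)) : (∃ I ∈ A.powerset, P I ∧ I.card = r A) ∧
    ∀ I ∈ A.powerset, P I → I.card ≤ r A := by
  obtain ⟨a, ha, rfl⟩ := exists_mask A
  constructor
  · obtain ⟨⟨i, hi⟩, h1, h2, h3⟩ := sub_mask ⟨a, ha⟩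
    refine ⟨ofMask i, ?_, (P_ofMask i hi).2 h2, ?_⟩
    · rw [Finset.mem_powerset, ← Finset.union_eq_left, ← ofMask_or]
      exact congrArg ofMask h1
    · rw [card_ofMask, r_ofMask a ha]
      exact h3
  · intro I hI hP
    obtain ⟨i, hi, rfl⟩ := exists_mask I
    rw [Finset.mem_powerset, ← Finset.union_eq_left, ← ofMask_or] at hI
    have h1 : a ||| i = a := by
      apply Nat.eq_of_testBit_eq
      intro k
      by_cases hk : k < 7
      · have h2 := mem_ofMask (a ||| i) ⟨k, hk⟩
        rw [hI, mem_ofMask] at h2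
        exact Bool.eq_iff_iff.2 h2.symm
      · have h3 : ∀ m < 128, m.testBit k = false := by
          intro m hm
          apply Nat.testBit_lt_two_pow
          have : 2 ^ 7 ≤ 2 ^ k := Nat.pow_le_pow_right (by norm_num) (by omega)
          omega
        rw [h3 _ (Nat.or_lt_two_pow (n := 7) ha hi), h3 _ ha]
    rw [card_ofMask, r_ofMask a ha]
    exact sup_mask ⟨a, ha⟩ ⟨i, hi⟩ h1 ((P_ofMask i hi).1 hP)

theorem eRk_nonFano (A : Finset (Fin 7)) : nonFano.eRk (A : Set (Fin 7)) = (r A : ℕ∞) := by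
  obtain ⟨⟨I, hI, hPI, hIc⟩, h2⟩ := r_max A
  apply le_antisymm
  · rw [Matroid.eRk_le_iff]
    intro J hJA hJ
    lift J to Finset (Fin 7) using Set.toFinite J
    rw [nonFano_indep] at hJ
    rw [Set.encard_coe_eq_coe_finsetCard]
    exact_mod_cast h2 J (by simpa using hJA) hJ
  · rw [← hIc, ← Set.encard_coe_eq_coe_finsetCard]
    exact ((nonFano_indep I).2 hPI).encard_le_eRk_of_subset (by simpa using hI)

/-- The entropy of a function of a random variable only depends on its kernel. -/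
theorem entropy_congr {Ω β β' : Type} (Q : PMF Ω) (hQ : PChar823.FiniteEntropy Q) (Y : Ω → β)
    (Y' : Ω → β') (h : ∀ ω ω', Y ω = Y ω' ↔ Y' ω = Y' ω') :
    PChar823.entropy (Q.map Y) = PChar823.entropy (Q.map Y') := by
  have h1 := PChar823.hasSum_entropy_map Q Y hQ
  have h2 := PChar823.hasSum_entropy_map Q Y' hQ
  have h3 : (fun ω => (Q ω).toReal * (-Real.log (PChar823.atom Q Y ω).toReal)) =
      fun ω => (Q ω).toReal * (-Real.log (PChar823.atom Q Y' ω).toReal) := by
    funext ω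
    rw [atom_congr' Q Y Y' ω (h ω)]
  rw [h3] at h1
  exact h1.unique h2

theorem four_notMem : (4 : ℤ) ∉ pCharSet nonFano := by
  rintro ⟨-, α, Q, hQ, hent⟩
  let Ω := ∀ i : nonFano.E, α i
  let β : Fin 7 → Type := fun i => α ⟨i, Set.mem_univ i⟩
  let X : ∀ i, Ω → β i := fun i ω => ω ⟨i, Set.mem_univ i⟩
  have hent' : ∀ A : Finset (Fin 7), PChar823.entropy (Q.map (res X A)) = Real.log (4 : ℕ) * r A := by
    intro A
    have h1 := hent {i | i.1 ∈ A}
    have h2 : (Subtype.val '' {i : nonFano.E | i.1 ∈ A}) = (A : Set (Fin 7)) := by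
      ext i
      simp
    simp only [h2, eRk_nonFano] at h1
    rw [entropy_congr Q hQ (res X A) (fun x (i : {i : nonFano.E | i.1 ∈ A}) => x i) (by
      intro ω ω'
      rw [res_eq]
      constructor
      · intro h
        funext i
        exact h i.1.1 i.2
      · intro h i hi
        exact congrFun h ⟨⟨i, Set.mem_univ i⟩, hi⟩), ← h1]
    simp
  obtain ⟨C, hne, hsurj, hun, hdet⟩ := code_of_entropic Q hQ β X 4 (by norm_num) r hent' (by
    intro i
    have : ∀ i : Fin 7, ∃ j k : Fin 7, r {i} = 1 ∧ r {j} = 1 ∧ r {k} = 1 ∧ r ({i} ∪ {j}) = 2 ∧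
      r ({i} ∪ {k}) = 2 ∧ r ({j} ∪ {k}) = 2 ∧ r ({i} ∪ {j} ∪ {k}) = 2 := by decide +kernel
    exact this i)
  have full' : ∀ i j k : Fin 7, r ({i} ∪ {j}) = 2 → r ({i} ∪ {j} ∪ {k}) = 3 → ∀ x y z,
      ∃ c ∈ C, c i = x ∧ c j = y ∧ c k = z := by
    intro i j k hij hijk x y z
    obtain ⟨cx, hcx, hx⟩ := hsurj i x
    obtain ⟨cy, hcy, hy⟩ := hsurj j y
    obtain ⟨cz, hcz, hz⟩ := hsurj k z
    obtain ⟨c1, hc1, h11, h12⟩ := hun {i} {j} (by rw [hij]; simp [r]) cx hcx cy hcy
    obtain ⟨c2, hc2, h21, h22⟩ := hun ({i} ∪ {j}) {k} (by rw [hij, hijk]; simp [r]) c1 hc1 cz hcz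
    refine ⟨c2, hc2, ?_, ?_, ?_⟩
    · rw [h21 i (by simp), h11 i (by simp), hx]
    · rw [h21 j (by simp), h12 j (by simp), hy]
    · rw [h22 k (by simp), hz]
  refine no_nonfano_code (Z := Fin 4) (by simp) (by simp) C (full' 0 1 2 (by decide) (by decide))
    (full' 0 1 4 (by decide) (by decide)) ?_ ?_
  · intro i j k hl c hc c' hc' h1 h2
    have hr : ∀ i j k : Fin 7, ({i, j, k} : Finset (Fin 7)) ∈
      ({{0, 1, 3}, {1, 2, 4}, {0, 2, 5}, {0, 4, 6}, {1, 5, 6}, {2, 3, 6}} : Finset (Finset (Fin 7))) →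
      r {i, j} = r {i, j, k} := by decide +kernel
    refine hdet {i, j} {i, j, k} ?_ (hr i j k hl) c hc c' hc' ?_ k (by simp)
    · intro e he
      simp only [Finset.mem_insert, Finset.mem_singleton] at he ⊢
      tauto
    · intro e he
      simp only [Finset.mem_insert, Finset.mem_singleton] at he
      rcases he with rfl | rfl
      · exact h1
      · exact h2
  · intro c hc c' hc' h3 h4 h5
    refine hdet {3, 4, 5} Finset.univ (Finset.subset_univ _) (by decide) c hc c' hc' ?_ 0 (by simp)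
    intro e he
    simp only [Finset.mem_insert, Finset.mem_singleton] at he
    rcases he with rfl | rfl | rfl
    · exact h3
    · exact h4
    · exact h5

/-- Three pairwise independent but dependent vectors over `ℤ/2` have sum zero. -/
theorem sum_zero {α : Type} [DecidableEq α] {k : ℕ} (φ : α → Fin k → ZMod 2) (i j l : α) (hil : l ≠ i)
    (hjl : l ≠ j) (hij : i ≠ j)
    (h1 : LinearIndepOn (ZMod 2) φ {i, j}) (h2 : LinearIndepOn (ZMod 2) φ {l, j})
    (h3 : LinearIndepOn (ZMod 2) φ {l, i})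
    (hd : ¬ LinearIndepOn (ZMod 2) φ {l, i, j}) : φ i + φ j = φ l := by
  have e1 : ({l, i, j} : Set α) = insert l {i, j} := rfl
  rw [e1, linearIndepOn_insert (by simp [hil, hjl])] at hd
  have hm : φ l ∈ Submodule.span (ZMod 2) (φ '' {i, j}) := by
    by_contra h
    exact hd ⟨h1, h⟩
  rw [Set.image_pair, Submodule.mem_span_pair] at hm
  obtain ⟨a, b, hab⟩ := hm
  have e2 : ({l, j} : Set α) = insert l {j} := rfl
  have e3 : ({l, i} : Set α) = insert l {i} := rfl
  rw [e2, linearIndepOn_insert (by simpa using hjl)] at h2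
  rw [e3, linearIndepOn_insert (by simpa using hil)] at h3
  have ha : a = 1 := by
    have : ∀ a : ZMod 2, a ≠ 0 → a = 1 := by decide
    apply this
    rintro rfl
    apply h2.2
    rw [Set.image_singleton, Submodule.mem_span_singleton]
    exact ⟨b, by rw [← hab]; simp⟩
  have hb : b = 1 := by
    have : ∀ a : ZMod 2, a ≠ 0 → a = 1 := by decide
    apply this
    rintro rfl
    apply h3.2
    rw [Set.image_singleton, Submodule.mem_span_singleton]
    exact ⟨a, by rw [← hab]; simp⟩
  rw [← hab, ha, hb, one_smul, one_smul]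

theorem nonFano_not_regular : ¬ Regular nonFano := by
  intro h
  obtain ⟨k, φ, hφ⟩ := h (ZMod 2)
  have hφ' : ∀ I : Finset (Fin 7), P I ↔ LinearIndepOn (ZMod 2) φ (I : Set (Fin 7)) := by
    intro I
    rw [← nonFano_indep, hφ _ (Set.subset_univ _)]
  have key : ∀ i j l : Fin 7, l ≠ i → l ≠ j → i ≠ j → P {i, j} → P {l, j} → P {l, i} → ¬ P {l, i, j} →
      φ i + φ j = φ l := by
    intro i j l h1 h2 h3 h4 h5 h6 h7
    have e4 := (hφ' _).1 h4
    have e5 := (hφ' _).1 h5
    have e6 := (hφ' _).1 h6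
    have e7 := fun h => h7 ((hφ' _).2 h)
    simp only [Finset.coe_insert, Finset.coe_singleton] at e4 e5 e6 e7
    exact sum_zero φ i j l h1 h2 h3 e4 e5 e6 e7
  have k3 := key 0 1 3 (by decide) (by decide) (by decide) (by decide) (by decide) (by decide) (by decide)
  have k4 := key 1 2 4 (by decide) (by decide) (by decide) (by decide) (by decide) (by decide) (by decide)
  have k5 := key 0 2 5 (by decide) (by decide) (by decide) (by decide) (by decide) (by decide) (by decide)
  have h345 : LinearIndepOn (ZMod 2) φ (({3, 4, 5} : Finset (Fin 7)) : Set (Fin 7)) :=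
    (hφ' _).1 (by decide)
  simp only [Finset.coe_insert, Finset.coe_singleton] at h345
  have e1 : ({3, 4, 5} : Set (Fin 7)) = insert 3 {4, 5} := rfl
  rw [e1, linearIndepOn_insert (by simp)] at h345
  apply h345.2
  rw [Set.image_pair, Submodule.mem_span_pair]
  refine ⟨1, 1, ?_⟩
  rw [one_smul, one_smul, ← k3, ← k4, ← k5]
  have h2 : φ 2 + φ 2 = 0 := by
    funext i
    exact CharTwo.add_self_eq_zero _
  calc φ 1 + φ 2 + (φ 0 + φ 2) = φ 0 + φ 1 + (φ 2 + φ 2) := by abel
    _ = φ 0 + φ 1 := by rw [h2, add_zero]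

theorem nonFano_not_inClass : ¬ InClass nonFano := by
  rintro ⟨-, h | h⟩
  · exact nonFano_not_regular h
  · apply four_notMem
    rw [h]
    constructor <;> norm_num

/-- A minor of `nonFano`, in terms of `r`. -/
theorem minor_form {X : Matroid (Fin 7)} (hX : X ≤m nonFano) :
    ∃ C D : Finset (Fin 7), Disjoint C D ∧ X.E = ((C ∪ D : Finset (Fin 7)) : Set (Fin 7))ᶜ ∧
      ∀ I : Finset (Fin 7), Disjoint I (C ∪ D) → (X.Indep (I : Set (Fin 7)) ↔
        r (I ∪ C) = I.card + r C) := by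
  obtain ⟨C, D, hC, hD, hdisj, rfl⟩ := hX.exists_eq_contract_delete_disjoint
  lift C to Finset (Fin 7) using Set.toFinite C
  lift D to Finset (Fin 7) using Set.toFinite D
  refine ⟨C, D, by simpa using hdisj, ?_, ?_⟩
  · rw [Matroid.delete_ground, Matroid.contract_ground, nonFano_E]
    ext i
    simp
  · intro I hI
    rw [Finset.disjoint_union_right] at hI
    obtain ⟨J, hJ⟩ := nonFano.exists_isBasis (C : Set (Fin 7)) (Set.subset_univ _)
    lift J to Finset (Fin 7) using Set.toFinite J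
    have hJC : J ⊆ C := by simpa using hJ.subset
    have hIJ : Disjoint I J := Finset.disjoint_of_subset_right hJC hI.1
    rw [Matroid.delete_indep_iff, hJ.contract_indep_iff]
    have e1 : r C = J.card := by
      have := hJ.eRk_eq_encard
      rw [eRk_nonFano, Set.encard_coe_eq_coe_finsetCard] at this
      exact_mod_cast this
    have e2 : r (I ∪ C) = r (I ∪ J) := by
      have := hJ.eRk_eq_eRk_union (I : Set (Fin 7))
      rw [← Finset.coe_union, ← Finset.coe_union, eRk_nonFano, eRk_nonFano] at this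
      rw [Finset.union_comm I C, Finset.union_comm I J]
      exact_mod_cast this.symm
    rw [← Finset.coe_union, Matroid.indep_iff_eRk_eq_encard_of_finite (Finset.finite_toSet _),
      eRk_nonFano, Set.encard_coe_eq_coe_finsetCard, Finset.card_union_of_disjoint hIJ, e1, e2]
    constructor
    · rintro ⟨⟨h, -⟩, -⟩
      exact_mod_cast h
    · intro h
      refine ⟨⟨by exact_mod_cast h, ?_⟩, ?_⟩
      · simpa using hI.1.symm
      · simpa using hI.2

theorem no_uniform (k : ℕ) (hk : k = 2 ∨ k = 3) (C D : Finset (Fin 7)) (hCD : Disjoint C D)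
    (hcard : (C ∪ D).card = 2) :
    ∃ I : Finset (Fin 7), Disjoint I (C ∪ D) ∧ ¬ (r (I ∪ C) = I.card + r C ↔ I.card ≤ k) := by
  obtain ⟨c, hc, rfl⟩ := exists_mask C
  obtain ⟨d, hd, rfl⟩ := exists_mask D
  rw [disjoint_ofMask c d hc] at hCD
  rw [← ofMask_or, card_ofMask] at hcard
  obtain ⟨⟨i, hi⟩, h1, h2⟩ : ∃ i : Fin 128, i.1 &&& (c ||| d) = 0 ∧
      ¬ (rm (i.1 ||| c) = pc i.1 + rm c ↔ pc i.1 ≤ k) := by
    rcases hk with rfl | rfl
    · exact no_U25_mask ⟨c, hc⟩ ⟨d, hd⟩ hCD hcard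
    · exact no_U35_mask ⟨c, hc⟩ ⟨d, hd⟩ hCD hcard
  refine ⟨ofMask i, ?_, ?_⟩
  · rw [← ofMask_or, disjoint_ofMask i _ hi]
    exact h1
  · rw [← ofMask_or, r_ofMask _ (Nat.or_lt_two_pow (n := 7) hi hc), r_ofMask c hc, card_ofMask]
    exact h2

theorem minor_not_uniform {X : Matroid (Fin 7)} (hX : X ≤m nonFano) (k : ℕ) (hk : k = 2 ∨ k = 3) :
    ¬ IsUniform k 5 X := by
  rintro ⟨h5, hI⟩
  obtain ⟨C, D, hCD, hE, hind⟩ := minor_form hX
  have hcard : (C ∪ D).card = 2 := by
    rw [hE, ← Finset.coe_compl, Set.encard_coe_eq_coe_finsetCard, Finset.card_compl] at h5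
    have h6 : Fintype.card (Fin 7) - (C ∪ D).card = 5 := by exact_mod_cast h5
    rw [Fintype.card_fin] at h6
    omega
  obtain ⟨I, hdis, hI2⟩ := no_uniform k hk C D hCD hcard
  apply hI2
  rw [← hind I hdis, hI _ (by
    rw [hE, ← Finset.coe_compl, Finset.coe_subset]
    intro e he
    rw [Finset.mem_compl]
    exact Finset.disjoint_left.1 hdis he), Set.encard_coe_eq_coe_finsetCard]
  norm_cast

theorem eq_of_encard {X : Matroid (Fin 7)} (hX : X ≤m nonFano) (h7 : X.E.encard = 7) :
    X = nonFano := by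
  symm
  apply hX.eq_of_ground_subset
  have hu : (Set.univ : Set (Fin 7)).encard = 7 := by
    rw [Set.encard_univ]; simp
  have := Set.Finite.eq_of_subset_of_encard_le (Set.toFinite X.E) (Set.subset_univ X.E)
    (by rw [hu, h7])
  rw [this]
  exact Set.subset_univ _

theorem card_nonzero : ({x : Fin 3 → ZMod 2 | x ≠ 0} : Set (Fin 3 → ZMod 2)).encard = 7 := by
  have : ({x : Fin 3 → ZMod 2 | x ≠ 0} : Set (Fin 3 → ZMod 2)) =
      ((Finset.univ.filter fun x : Fin 3 → ZMod 2 => x ≠ 0 : Finset _) : Set _) := by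
    ext x; simp
  rw [this, Set.encard_coe_eq_coe_finsetCard]
  have : (Finset.univ.filter fun x : Fin 3 → ZMod 2 => x ≠ 0).card = 7 := by decide +kernel
  rw [this]; rfl

theorem fano_encard {α : Type} {X : Matroid α} (h : IsFano X) : X.E.encard = 7 := by
  obtain ⟨φ, hφ, -⟩ := h
  rw [← card_nonzero, ← hφ.image_eq, hφ.injOn.encard_image]

theorem minor_not_fano {X : Matroid (Fin 7)} (hX : X ≤m nonFano) : ¬ IsFano X := by
  intro h
  have hXe := eq_of_encard hX (fano_encard h)
  subst hXe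
  obtain ⟨φ, hφ, hI⟩ := h
  have hinj : ∀ i j, φ i = φ j → i = j := fun i j h => hφ.injOn (Set.mem_univ i) (Set.mem_univ j) h
  have hne : φ 3 ≠ φ 4 := fun h => absurd (hinj _ _ h) (by decide)
  have hsum : φ 3 + φ 4 ≠ 0 := by
    intro h
    apply hne
    funext i
    have := congrFun h i
    simp only [Pi.add_apply, Pi.zero_apply] at this
    exact CharTwo.add_eq_zero.1 this
  obtain ⟨k, -, hk⟩ := hφ.surjOn hsum
  have h0 : ∀ i, φ i ≠ 0 := fun i => hφ.mapsTo (Set.mem_univ i)
  have hk3 : k ≠ 3 := by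
    rintro rfl
    exact h0 4 (by simpa using hk.symm)
  have hk4 : k ≠ 4 := by
    rintro rfl
    exact h0 3 (by simpa using hk.symm)
  have hP : ∀ k : Fin 7, k ≠ 3 → k ≠ 4 → P {k, 3, 4} := by decide +kernel
  have hind := (hI _ (Set.subset_univ _)).1 ((nonFano_indep _).2 (hP k hk3 hk4))
  simp only [Finset.coe_insert, Finset.coe_singleton] at hind
  have e1 : ({k, 3, 4} : Set (Fin 7)) = insert k {3, 4} := rfl
  rw [e1, linearIndepOn_insert (by simp [hk3, hk4])] at hind
  apply hind.2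
  rw [Set.image_pair, Submodule.mem_span_pair]
  exact ⟨1, 1, by rw [one_smul, one_smul, hk]⟩

theorem minor_not_fano_dual {X : Matroid (Fin 7)} (hX : X ≤m nonFano) : ¬ IsFano X✶ := by
  intro h
  have h7 := fano_encard h
  rw [Matroid.dual_ground] at h7
  have hXe := eq_of_encard hX h7
  subst hXe
  obtain ⟨φ, -, hI⟩ := h
  obtain ⟨B, hB⟩ := nonFano✶.exists_isBase
  have h1 := nonFano.eRank_add_eRank_dual
  have h2 : nonFano.eRank = 3 := by
    rw [Matroid.eRank_def, nonFano_E, ← Finset.coe_univ, eRk_nonFano]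
    have : r Finset.univ = 3 := by decide +kernel
    rw [this]; rfl
  rw [h2, h7, ← hB.encard_eq_eRank] at h1
  have h3 := (hI B (by rw [Matroid.dual_ground]; exact Set.subset_univ _)).1 hB.indep
  lift B to Finset (Fin 7) using Set.toFinite B
  rw [Set.encard_coe_eq_coe_finsetCard] at h1
  have h4 : B.card = 4 := by
    have : 3 + B.card = 7 := by exact_mod_cast h1
    omega
  have h5 : LinearIndependent (ZMod 2) (fun x : (B : Set (Fin 7)) => φ x) := h3
  have h6 := h5.fintype_card_le_finrank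
  rw [Module.finrank_fin_fun] at h6
  simp only [Finset.coe_sort_coe, Fintype.card_coe] at h6
  omega

/-- There is an excluded minor of `M'` which is not isomorphic to `U_{2,5}`, `U_{3,5}`, `F₇` or
`F₇*`; it is a minor of the non-Fano matroid. -/
theorem result : ∃ X : Matroid (Fin 7), X ≤m nonFano ∧ ExcludedMinor X ∧
    ¬ IsUniform 2 5 X ∧ ¬ IsUniform 3 5 X ∧ ¬ IsFano X ∧ ¬ IsFano X✶ := by
  classical
  have hex : ∃ n : ℕ, ∃ X : Matroid (Fin 7), X ≤m nonFano ∧ ¬ InClass X ∧ X.E.ncard = n :=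
    ⟨_, nonFano, Matroid.IsMinor.refl, nonFano_not_inClass, rfl⟩
  obtain ⟨X, hX, hXc, hXn⟩ := Nat.find_spec hex
  refine ⟨X, hX, ⟨Set.toFinite _, hXc, ?_⟩, minor_not_uniform hX 2 (Or.inl rfl),
    minor_not_uniform hX 3 (Or.inr rfl), minor_not_fano hX, minor_not_fano_dual hX⟩
  intro N hN
  by_contra hNc
  have hlt : N.E.ncard < X.E.ncard := Set.ncard_lt_ncard hN.ssubset (Set.toFinite _)
  rw [hXn] at hlt
  exact Nat.find_min hex hlt ⟨N, hN.isMinor.trans hX, hNc, rfl⟩

end Pool.Agent.Results.MP_cf16d9_co.NonFanoMinor
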